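import Mathlib

/-!
# Upper embeddability of a configuration `v_3` depends on the orientation

A connected symmetric configuration `27_3` with two orientations, such that it is upper embeddable
in the first one and not in the second one. Three copies of the Fano plane with one incidence cut
are inserted into three incidences of a small bipartite cubic graph with 6 + 6 vertices.
-/

set_option autoImplicit false

namespace Pool.Agent.Results.MP_e7dc11_co.OrientationDependence

/-! ## Definitions -/

/-- A symmetric configuration `v_3` with the set of points `V` and the set of blocks indexed by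
`B`: every block has 3 points, every point lies in 3 blocks, and two different blocks have at most
one common point (so two different points lie together in at most one block). -/
structure Conf (V B : Type) [Fintype V] [DecidableEq V] [Fintype B] where
  /-- the set of points of a block -/
  blk : B → Finset V
  card_blk : ∀ b, (blk b).card = 3
  card_pt : ∀ p, (Finset.univ.filter (fun b => p ∈ blk b)).card = 3
  linear : ∀ b b', b ≠ b' → (blk b ∩ blk b').card ≤ 1

section general

variable {V B : Type} [Fintype V] [DecidableEq V] [Fintype B]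

/-- the associated graph `K` -/
def graph (X : Conf V B) : SimpleGraph V where
  Adj x y := x ≠ y ∧ ∃ b, x ∈ X.blk b ∧ y ∈ X.blk b
  symm := ⟨fun _ _ h => ⟨h.1.symm, h.2.imp fun _ hb => ⟨hb.2, hb.1⟩⟩⟩
  loopless := ⟨fun _ h => h.1 rfl⟩

/-- An orientation: for every block one of the two cyclic orders of its three points, given as a
permutation `cyc b` of the points which moves every point of the block to another point of the
block (hence is a 3-cycle on the block) and fixes all other points. -/
structure Orientation (X : Conf V B) where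
  /-- the cyclic order of a block: `cyc b x` is the successor of `x` -/
  cyc : B → Equiv.Perm V
  fixes : ∀ b x, x ∉ X.blk b → cyc b x = x
  moves : ∀ b x, x ∈ X.blk b → cyc b x ∈ X.blk b ∧ cyc b x ≠ x

/-- A rotation system of `K`, i.e. a cellular embedding of `K` in a closed oriented surface: at
every vertex `u` a cyclic permutation `rot u` of the neighbours of `u` (all other points are
fixed). -/
structure RotationSystem (X : Conf V B) where
  /-- the next neighbour in the rotation at `u` -/
  rot : V → Equiv.Perm V
  fixes : ∀ u x, ¬ (graph X).Adj u x → rot u x = x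
  cyclic : ∀ u x y, (graph X).Adj u x → (graph X).Adj u y → (rot u).SameCycle x y

/-- The face permutation: the dart `(x, y)` (the edge `xy` directed from `x` to `y`) is followed on
the boundary of its face by the dart `(y, rot y x)`. The faces of the embedding are the orbits of
this map on the darts. -/
def step {X : Conf V B} (ρ : RotationSystem X) (d : V × V) : V × V := (d.2, ρ.rot d.2 d.1)

/-- the darts `(x, ω b x)` of the block triangles, directed according to the orientation `ω` -/
def BlockDart {X : Conf V B} (ω : Orientation X) (d : V × V) : Prop :=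
  ∃ b, d.1 ∈ X.blk b ∧ d.2 = ω.cyc b d.1

/-- `X` is upper embeddable in the orientation `ω`: there is an embedding of `K` in which every
block triangle, directed as in `ω`, is the boundary of a face, and all the other darts (those which
are not on a block face) belong to only one face. -/
def UpperEmbeddable (X : Conf V B) (ω : Orientation X) : Prop :=
  ∃ ρ : RotationSystem X,
    (∀ b, ∀ x ∈ X.blk b, step ρ (x, ω.cyc b x) = (ω.cyc b x, ω.cyc b (ω.cyc b x))) ∧
    (∀ d d' : V × V, (graph X).Adj d.1 d.2 → (graph X).Adj d'.1 d'.2 → ¬ BlockDart ω d →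
      ¬ BlockDart ω d' → ∃ n : ℕ, (step ρ)^[n] d = d')

end general

/-! ## The configuration -/

/-- the points: six core points and three pieces with seven points; the blocks are indexed by the
same set -/
abbrev Pt := Fin 6 ⊕ (Fin 3 × Fin 7)

/-- the core point on the first block of piece `i` -/
def cp : Fin 3 → Fin 6 := ![2, 4, 5]

/-- the core block which contains the first point of piece `i` -/
def cb : Fin 3 → Fin 6 := ![5, 2, 5]

/-- the three points of a block, in cyclic order -/
def pts : Pt → Fin 3 → Pt
  | Sum.inl b => ![![Sum.inl 0, Sum.inl 2, Sum.inl 3],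
      ![Sum.inl 0, Sum.inl 4, Sum.inl 5],
      ![Sum.inl 0, Sum.inl 1, Sum.inr (1, 0)],
      ![Sum.inl 1, Sum.inl 3, Sum.inl 4],
      ![Sum.inl 1, Sum.inl 2, Sum.inl 5],
      ![Sum.inr (0, 0), Sum.inl 3, Sum.inr (2, 0)]] b
  | Sum.inr (i, j) => ![if j = 0 then Sum.inl (cp i) else Sum.inr (i, j), Sum.inr (i, j + 1),
      Sum.inr (i, j + 3)]

/-- the three blocks of a point -/
def bl : Pt → Fin 3 → Pt
  | Sum.inl x => ![![Sum.inl 0, Sum.inl 1, Sum.inl 2],
      ![Sum.inl 2, Sum.inl 3, Sum.inl 4],
      ![Sum.inl 0, Sum.inl 4, Sum.inr (0, 0)],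
      ![Sum.inl 0, Sum.inl 3, Sum.inl 5],
      ![Sum.inl 1, Sum.inl 3, Sum.inr (1, 0)],
      ![Sum.inl 1, Sum.inl 4, Sum.inr (2, 0)]] x
  | Sum.inr (i, j) => ![if j = 0 then Sum.inl (cb i) else Sum.inr (i, j), Sum.inr (i, j - 1),
      Sum.inr (i, j - 3)]

/-- the configuration `27_3` -/
def X : Conf Pt Pt where
  blk b := {pts b 0, pts b 1, pts b 2}
  card_blk := by decide +kernel
  card_pt := by decide +kernel
  linear := by decide +kernel

/-- is the cyclic order of the block `b` reversed? In the orientation `r = true` only the core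
block 3 is reversed, in the orientation `r = false` none. -/
def rev (r : Bool) (b : Pt) : Bool := r && decide (b = Sum.inl 3)

/-- the cyclic shift of the three points of a block (`t = false`: to the next point, `t = true`: to
the previous point) -/
def shift (t : Bool) (b x : Pt) : Pt :=
  if x = pts b 0 then (if t then pts b 2 else pts b 1)
  else if x = pts b 1 then (if t then pts b 0 else pts b 2)
  else if x = pts b 2 then (if t then pts b 1 else pts b 0)
  else x

theorem shift_shift : ∀ (t : Bool) (b x : Pt), shift (!t) b (shift t b x) = x := by decide +kernel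

/-- the two orientations -/
def ori (r : Bool) : Orientation X where
  cyc b := ⟨shift (rev r b) b, shift (!rev r b) b, shift_shift _ b, fun x => by
    have h := shift_shift (!rev r b) b x
    rwa [Bool.not_not] at h⟩
  fixes b x h := by
    have h0 : x ≠ pts b 0 := by rintro rfl; exact h (by simp [X])
    have h1 : x ≠ pts b 1 := by rintro rfl; exact h (by simp [X])
    have h2 : x ≠ pts b 2 := by rintro rfl; exact h (by simp [X])
    show shift (rev r b) b x = x
    unfold shift
    rw [if_neg h0, if_neg h1, if_neg h2]
  moves := by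
    have h : ∀ (t : Bool) (b x : Pt), x ∈ X.blk b → shift t b x ∈ X.blk b ∧ shift t b x ≠ x := by
      decide +kernel
    exact fun b x hx => h _ b x hx

/-- successor and predecessor of `x` in its `i`-th block -/
def S (r : Bool) (x : Pt) (i : Fin 3) : Pt := shift (rev r (bl x i)) (bl x i) x

/-- predecessor of `x` in its `i`-th block -/
def P (r : Bool) (x : Pt) (i : Fin 3) : Pt := shift (!rev r (bl x i)) (bl x i) x

/-- the number of the block `b` among the blocks of `y` -/
def slot (y b : Pt) : Fin 3 := if bl y 0 = b then 0 else if bl y 1 = b then 1 else 2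

/-- flags -/
abbrev Flag := Pt × Fin 3

/-- leave `x` through its block number `j` -/
def nxt (r : Bool) (x : Pt) (j : Fin 3) : Flag := (P r x j, slot (P r x j) (bl x j))

/-- the face map on the flags -/
def F (r : Bool) (ε : Pt → Bool) (f : Flag) : Flag := nxt r f.1 (f.2 + (if ε f.1 then 2 else 1))

instance : DecidableRel (graph X).Adj := fun x y =>
  inferInstanceAs (Decidable (x ≠ y ∧ ∃ b, x ∈ X.blk b ∧ y ∈ X.blk b))

theorem adj_iff : ∀ (r : Bool) (x y : Pt), (graph X).Adj x y ↔ ∃ i, y = S r x i ∨ y = P r x i := by
  decide +kernel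

theorem S_ne_P : ∀ (r : Bool) (x : Pt) (i j : Fin 3), S r x i ≠ P r x j := by decide +kernel

theorem S_inj : ∀ (r : Bool) (x : Pt) (i j : Fin 3), S r x i = S r x j → i = j := by decide +kernel

theorem P_inj : ∀ (r : Bool) (x : Pt) (i j : Fin 3), P r x i = P r x j → i = j := by decide +kernel

theorem P_mem : ∀ (r : Bool) (x : Pt) (i : Fin 3), P r x i ∈ X.blk (bl x i) := by decide +kernel

theorem cyc_P : ∀ (r : Bool) (x : Pt) (i : Fin 3), (ori r).cyc (bl x i) (P r x i) = x := by
  intro r x i
  show shift (rev r (bl x i)) (bl x i) (shift (!rev r (bl x i)) (bl x i) x) = x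
  have h := shift_shift (!rev r (bl x i)) (bl x i) x
  rwa [Bool.not_not] at h

theorem cyc_self (r : Bool) (x : Pt) (i : Fin 3) : (ori r).cyc (bl x i) x = S r x i := rfl

theorem nonblock : ∀ (r : Bool) (x : Pt) (i : Fin 3) (b : Pt), S r x i ∈ X.blk b →
    x ≠ shift (rev r b) b (S r x i) := by decide +kernel

theorem S_nxt : ∀ (r : Bool) (x : Pt) (j : Fin 3), S r (nxt r x j).1 (nxt r x j).2 = x := by decide +kernel

/-! ## From rotation systems to rotations of the three blocks at every point -/

theorem derangement : ∀ a b c : Fin 3, a ≠ 0 → b ≠ 1 → c ≠ 2 → a ≠ b → a ≠ c → b ≠ c →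
    (a = 1 ∧ b = 2 ∧ c = 0) ∨ (a = 2 ∧ b = 0 ∧ c = 1) := by decide

/-- the dart of a flag `(x, i)`: from the successor of `x` in its `i`-th block to `x` -/
def dart (r : Bool) (f : Flag) : Pt × Pt := (S r f.1 f.2, f.1)

theorem exists_eps (r : Bool) (ρ : RotationSystem X)
    (hρ : ∀ b, ∀ x ∈ X.blk b, step ρ (x, (ori r).cyc b x) =
      ((ori r).cyc b x, (ori r).cyc b ((ori r).cyc b x))) :
    ∃ ε : Pt → Bool, ∀ x i, ρ.rot x (S r x i) = P r x (i + (if ε x then 2 else 1)) := by
  have hPS : ∀ x i, ρ.rot x (P r x i) = S r x i := by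
    intro x i
    have h := hρ (bl x i) (P r x i) (P_mem r x i)
    rw [cyc_P, cyc_self] at h
    have h2 := congrArg Prod.snd h
    exact h2
  have key : ∀ x, ∃ e : Bool, ∀ i, ρ.rot x (S r x i) = P r x (i + (if e then 2 else 1)) := by
    intro x
    have hadjS : ∀ i, (graph X).Adj x (S r x i) := fun i => (adj_iff r x _).mpr ⟨i, Or.inl rfl⟩
    have hadjP : ∀ i, (graph X).Adj x (P r x i) := fun i => (adj_iff r x _).mpr ⟨i, Or.inr rfl⟩
    have h1 : ∀ i, ∃ j, ρ.rot x (S r x i) = P r x j := by
      intro i
      have hadj : (graph X).Adj x (ρ.rot x (S r x i)) := by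
        by_contra hn
        have h2 := ρ.fixes x _ hn
        have h3 := (ρ.rot x).injective h2
        rw [h3] at hn
        exact hn (hadjS i)
      obtain ⟨j, hj | hj⟩ := (adj_iff r x _).mp hadj
      · exfalso
        rw [← hPS x j] at hj
        exact S_ne_P r x i j ((ρ.rot x).injective hj)
      · exact ⟨j, hj⟩
    choose π hπ using h1
    have hinj : ∀ i j, i ≠ j → π i ≠ π j := by
      intro i j hij heq
      apply hij
      apply S_inj r x
      apply (ρ.rot x).injective
      rw [hπ, hπ, heq]
    have hne : ∀ i, π i ≠ i := by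
      intro i hi
      have h2 := hπ i
      rw [hi] at h2
      -- `{P i, S i}` is invariant
      have h3 : ∀ n : ℕ, ((ρ.rot x) ^ n) (P r x i) = P r x i ∨
          ((ρ.rot x) ^ n) (P r x i) = S r x i := by
        intro n
        induction n with
        | zero => left; rfl
        | succ n ih =>
          rw [pow_succ', Equiv.Perm.mul_apply]
          rcases ih with h | h
          · right; rw [h]; exact hPS x i
          · left; rw [h]; exact h2
      obtain ⟨n, hn⟩ := (ρ.cyclic x _ _ (hadjP i) (hadjP (i + 1))).exists_nat_pow_eq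
      rcases h3 n with h | h
      · rw [hn] at h
        have h4 : ∀ i : Fin 3, i + 1 ≠ i := by decide
        exact h4 i (P_inj r x _ _ h)
      · rw [hn] at h
        exact S_ne_P r x _ _ h.symm
    rcases derangement (π 0) (π 1) (π 2) (hne 0) (hne 1) (hne 2) (hinj 0 1 (by decide))
      (hinj 0 2 (by decide)) (hinj 1 2 (by decide)) with ⟨h0, h1, h2⟩ | ⟨h0, h1, h2⟩
    · refine ⟨false, fun i => ?_⟩
      rw [hπ]
      fin_cases i
      · show P r x (π 0) = _; rw [h0]; rfl
      · show P r x (π 1) = _; rw [h1]; rfl
      · show P r x (π 2) = _; rw [h2]; rfl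
    · refine ⟨true, fun i => ?_⟩
      rw [hπ]
      fin_cases i
      · show P r x (π 0) = _; rw [h0]; rfl
      · show P r x (π 1) = _; rw [h1]; rfl
      · show P r x (π 2) = _; rw [h2]; rfl
  choose ε hε using key
  exact ⟨ε, hε⟩

theorem step_dart (r : Bool) (ρ : RotationSystem X) (ε : Pt → Bool)
    (hε : ∀ x i, ρ.rot x (S r x i) = P r x (i + (if ε x then 2 else 1))) (f : Flag) :
    step ρ (dart r f) = dart r (F r ε f) := by
  show (f.1, ρ.rot f.1 (S r f.1 f.2)) = _
  rw [hε]
  unfold dart F
  rw [S_nxt]
  rfl

theorem iterate_dart (r : Bool) (ρ : RotationSystem X) (ε : Pt → Bool)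
    (hε : ∀ x i, ρ.rot x (S r x i) = P r x (i + (if ε x then 2 else 1))) (n : ℕ) (f : Flag) :
    (step ρ)^[n] (dart r f) = dart r ((F r ε)^[n] f) := by
  induction n with
  | zero => rfl
  | succ n ih =>
    rw [Function.iterate_succ_apply', ih, step_dart r ρ ε hε, Function.iterate_succ_apply']

theorem dart_injective (r : Bool) : Function.Injective (dart r) := by
  rintro ⟨x, i⟩ ⟨y, j⟩ h
  have h2 : x = y := congrArg Prod.snd h
  subst h2
  have h1 : S r x i = S r x j := congrArg Prod.fst h
  rw [S_inj r x i j h1]

theorem not_blockDart (r : Bool) (f : Flag) : ¬ BlockDart (ori r) (dart r f) := by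
  rintro ⟨b, hb, he⟩
  exact nonblock r f.1 f.2 b hb he

theorem adj_dart (r : Bool) (f : Flag) : (graph X).Adj (dart r f).1 (dart r f).2 :=
  ((adj_iff r f.1 _).mpr ⟨f.2, Or.inl rfl⟩).symm

/-- if `X` is upper embeddable in the orientation `r` then some face map on the flags is
transitive -/
theorem transitive_of_upper (r : Bool) (h : UpperEmbeddable X (ori r)) :
    ∃ ε : Pt → Bool, ∀ f f' : Flag, ∃ n : ℕ, (F r ε)^[n] f = f' := by
  obtain ⟨ρ, h1, h2⟩ := h
  obtain ⟨ε, hε⟩ := exists_eps r ρ h1
  refine ⟨ε, fun f f' => ?_⟩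
  obtain ⟨n, hn⟩ := h2 (dart r f) (dart r f') (adj_dart r f) (adj_dart r f') (not_blockDart r f)
    (not_blockDart r f')
  rw [iterate_dart r ρ ε hε] at hn
  exact ⟨n, dart_injective r hn⟩

/-! ## The orientation `true`: invariant sets of flags -/

/-- result of leaving a point of a piece: another flag of the piece, or one of the two exits -/
inductive Out
  | ins (j : Fin 7) (s : Fin 3)
  | a
  | b
  deriving DecidableEq

/-- leave the point `j` of a piece through its block number `t` -/
def pn (j : Fin 7) (t : Fin 3) : Out :=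
  if t = 0 then (if j = 0 then .b else .ins (j + 3) 2)
  else if t = 1 then (if j = 1 then .a else .ins (j - 1) 0)
  else .ins (j - 2) 1

/-- the flag reached through the exit `a` of piece `i` -/
def exitA (i : Fin 3) : Flag := (Sum.inl (cp i), 2)

/-- the flag reached through the exit `b` of piece `i` -/
def exitB : Fin 3 → Flag := ![(Sum.inr (2, 0), 0), (Sum.inl 1, 0), (Sum.inl 3, 2)]

/-- the flag of an `Out` -/
def outFlag (i : Fin 3) : Out → Flag
  | .ins j s => (Sum.inr (i, j), s)
  | .a => exitA i
  | .b => exitB i

theorem nxt_piece : ∀ (i : Fin 3) (j : Fin 7) (t : Fin 3),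
    nxt true (Sum.inr (i, j)) t = outFlag i (pn j t) := by decide +kernel

/-- the face map inside a piece -/
def pstep (e : Fin 7 → Bool) (f : Fin 7 × Fin 3) : Out := pn f.1 (f.2 + (if e f.1 then 2 else 1))

theorem F_piece (ε : Pt → Bool) (i : Fin 3) (j : Fin 7) (s : Fin 3) :
    F true ε (Sum.inr (i, j), s) = outFlag i (pstep (fun j => ε (Sum.inr (i, j))) (j, s)) := by
  unfold F pstep
  rw [nxt_piece]

/-- the flags visited in a piece, starting from a given flag, before the exit -/
def walk (e : Fin 7 → Bool) : ℕ → Fin 7 × Fin 3 → List (Fin 7 × Fin 3)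
  | 0, _ => []
  | n + 1, f => f :: match pstep e f with
    | .ins j s => walk e n (j, s)
    | .a => []
    | .b => []

/-- the flags visited after entering the piece through its first port -/
def WA (e : Fin 7 → Bool) : List (Fin 7 × Fin 3) := walk e 21 (3, 2)

/-- the flags visited after entering the piece through its second port -/
def WB (e : Fin 7 → Bool) : List (Fin 7 × Fin 3) := walk e 21 (0, 0)

/-- whoever enters the piece through a port leaves it through the same port -/
def good (e : Fin 7 → Bool) : Bool :=
  (WA e).all (fun f => match pstep e f with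
    | .ins j s => decide ((j, s) ∈ WA e)
    | .a => true
    | .b => false) &&
  (WB e).all (fun f => match pstep e f with
    | .ins j s => decide ((j, s) ∈ WB e)
    | .a => false
    | .b => true)

/-- the flags which are not visited from the ports form a non-empty invariant set -/
def bad (e : Fin 7 → Bool) : Bool :=
  decide (∃ f : Fin 7 × Fin 3, f ∉ WA e ++ WB e) &&
  decide (∀ f : Fin 7 × Fin 3, f ∉ WA e ++ WB e → (match pstep e f with
    | .ins j s => decide ((j, s) ∉ WA e ++ WB e)
    | .a => false
    | .b => false) = true)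

theorem good_or_bad' : ∀ a b c d e f g : Bool,
    (good ![a, b, c, d, e, f, g] || bad ![a, b, c, d, e, f, g]) = true := by decide +kernel

theorem good_or_bad (e : Fin 7 → Bool) : (good e || bad e) = true := by
  have h : e = ![e 0, e 1, e 2, e 3, e 4, e 5, e 6] := by
    funext i
    fin_cases i <;> rfl
  rw [h]
  exact good_or_bad' _ _ _ _ _ _ _

/-- the nodes of the reduced system: the core flags and the two ports of each piece -/
inductive Node
  | c (x : Fin 6) (s : Fin 3)
  | A (i : Fin 3)
  | B (i : Fin 3)
  deriving DecidableEq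

/-- the flag of a node -/
def toFlag : Node → Flag
  | .c x s => (Sum.inl x, s)
  | .A i => (Sum.inr (i, 3), 2)
  | .B i => (Sum.inr (i, 0), 0)

/-- leave the core point `x` through its block number `t` -/
def cn (x : Fin 6) (t : Fin 3) : Node := (![![.c 3 0, .c 5 0, .B 1],
  ![.c 0 2, .c 3 1, .c 5 1],
  ![.c 0 0, .c 1 2, .A 0],
  ![.c 2 0, .c 4 1, .B 0],
  ![.c 0 1, .c 1 1, .A 1],
  ![.c 4 0, .c 2 1, .A 2]] : Fin 6 → Fin 3 → Node) x t

theorem nxt_core : ∀ (x : Fin 6) (t : Fin 3), nxt true (Sum.inl x) t = toFlag (cn x t) := by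
  decide +kernel

/-- the reduced face map -/
def R (c : Fin 6 → Bool) : Node → Node
  | .c x s => cn x (s + (if c x then 2 else 1))
  | .A i => .c (cp i) 2
  | .B i => ![.B 2, .c 1 0, .c 3 2] i

theorem exitA_eq (c : Fin 6 → Bool) (i : Fin 3) : exitA i = toFlag (R c (.A i)) := rfl

theorem exitB_eq (c : Fin 6 → Bool) : ∀ i : Fin 3, exitB i = toFlag (R c (.B i)) := by
  intro i
  fin_cases i <;> rfl

/-- iterates of a node under the reduced face map -/
def orb (c : Fin 6 → Bool) : ℕ → Node → List Node
  | 0, _ => []
  | n + 1, m => m :: orb c n (R c m)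

/-- the orbit of the first core flag -/
def T0 (c : Fin 6 → Bool) : List Node := orb c 24 (.c 0 0)

/-- this orbit is invariant and misses a core flag -/
def coreCheck (c : Fin 6 → Bool) : Bool :=
  (T0 c).all (fun m => decide (R c m ∈ T0 c)) && decide (∃ x s, Node.c x s ∉ T0 c)

theorem core_check' : ∀ a b c d e f : Bool, coreCheck ![a, b, c, d, e, f] = true := by decide +kernel

theorem core_check (c : Fin 6 → Bool) : coreCheck c = true := by
  have h : c = ![c 0, c 1, c 2, c 3, c 4, c 5] := by
    funext i
    fin_cases i <;> rfl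
  rw [h]
  exact core_check' _ _ _ _ _ _

/-- no face map of the orientation `true` is transitive on the flags -/
theorem not_transitive (ε : Pt → Bool) : ¬ ∀ f f' : Flag, ∃ n : ℕ, (F true ε)^[n] f = f' := by
  -- it is enough to find a proper non-empty invariant set
  have key : ∀ T : Flag → Prop, (∀ f, T f → T (F true ε f)) → (∃ f, T f) → (∃ f, ¬ T f) →
      ¬ ∀ f f' : Flag, ∃ n : ℕ, (F true ε)^[n] f = f' := by
    rintro T hT ⟨f, hf⟩ ⟨f', hf'⟩ h
    obtain ⟨n, hn⟩ := h f f'
    apply hf'
    rw [← hn]
    clear hn
    induction n with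
    | zero => exact hf
    | succ n ih => rw [Function.iterate_succ_apply']; exact hT _ ih
  by_cases hbad : ∃ i : Fin 3, good (fun j => ε (Sum.inr (i, j))) = false
  · obtain ⟨i, hi⟩ := hbad
    set e : Fin 7 → Bool := fun j => ε (Sum.inr (i, j)) with he
    have hb : bad e = true := by
      have := good_or_bad e
      rw [hi, Bool.false_or] at this
      exact this
    unfold bad at hb
    rw [Bool.and_eq_true, decide_eq_true_eq, decide_eq_true_eq] at hb
    obtain ⟨⟨f0, hf0⟩, hb2⟩ := hb
    apply key (fun f => ∃ g : Fin 7 × Fin 3, g ∉ WA e ++ WB e ∧ f = (Sum.inr (i, g.1), g.2))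
    · rintro f ⟨g, hg, rfl⟩
      rw [F_piece]
      have h := hb2 g hg
      rw [← he]
      rcases hp : pstep e (g.1, g.2) with ⟨j, s⟩ | _ | _
      · rw [Prod.mk.eta] at hp
        rw [hp] at h
        exact ⟨(j, s), of_decide_eq_true h, rfl⟩
      · rw [Prod.mk.eta] at hp
        rw [hp] at h
        exact absurd h Bool.false_ne_true
      · rw [Prod.mk.eta] at hp
        rw [hp] at h
        exact absurd h Bool.false_ne_true
    · exact ⟨_, f0, hf0, rfl⟩
    · refine ⟨(Sum.inl 0, 0), ?_⟩
      rintro ⟨g, -, hg⟩
      have := congrArg Prod.fst hg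
      simp at this
  · push Not at hbad
    have hgood : ∀ i : Fin 3, good (fun j => ε (Sum.inr (i, j))) = true := by
      intro i
      have := hbad i
      simpa using this
    set c : Fin 6 → Bool := fun x => ε (Sum.inl x) with hc
    have hcc := core_check c
    unfold coreCheck at hcc
    rw [Bool.and_eq_true, decide_eq_true_eq, List.all_eq_true] at hcc
    obtain ⟨hR, x1, s1, h1⟩ := hcc
    have hR' : ∀ m ∈ T0 c, R c m ∈ T0 c := fun m hm => of_decide_eq_true (hR m hm)
    -- the invariant set
    let T : Flag → Prop := fun f => match f with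
      | (Sum.inl x, s) => Node.c x s ∈ T0 c
      | (Sum.inr (i, j), s) => (Node.A i ∈ T0 c ∧ (j, s) ∈ WA (fun j => ε (Sum.inr (i, j)))) ∨
          (Node.B i ∈ T0 c ∧ (j, s) ∈ WB (fun j => ε (Sum.inr (i, j))))
    have hTnode : ∀ m ∈ T0 c, T (toFlag m) := by
      rintro (⟨x, s⟩ | i | i) hm
      · exact hm
      · left
        exact ⟨hm, List.mem_cons_self⟩
      · right
        exact ⟨hm, List.mem_cons_self⟩
    apply key T
    · rintro ⟨x | ⟨i, j⟩, s⟩ hf
      · have h2 : F true ε (Sum.inl x, s) = toFlag (R c (.c x s)) := by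
          unfold F
          rw [nxt_core]
          rfl
        rw [h2]
        exact hTnode _ (hR' _ hf)
      · rw [F_piece]
        have hg := hgood i
        unfold good at hg
        rw [Bool.and_eq_true, List.all_eq_true, List.all_eq_true] at hg
        rcases hf with ⟨hm, hf⟩ | ⟨hm, hf⟩
        · have h2 := hg.1 _ hf
          rcases hp : pstep (fun j => ε (Sum.inr (i, j))) (j, s) with ⟨j', s'⟩ | _ | _
          · rw [hp] at h2
            exact Or.inl ⟨hm, of_decide_eq_true h2⟩
          · show T (exitA i)
            rw [exitA_eq c]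
            exact hTnode _ (hR' _ hm)
          · rw [hp] at h2
            exact absurd h2 Bool.false_ne_true
        · have h2 := hg.2 _ hf
          rcases hp : pstep (fun j => ε (Sum.inr (i, j))) (j, s) with ⟨j', s'⟩ | _ | _
          · rw [hp] at h2
            exact Or.inr ⟨hm, of_decide_eq_true h2⟩
          · rw [hp] at h2
            exact absurd h2 Bool.false_ne_true
          · show T (exitB i)
            rw [exitB_eq c]
            exact hTnode _ (hR' _ hm)
    · exact ⟨(Sum.inl 0, 0), List.mem_cons_self⟩
    · exact ⟨(Sum.inl x1, s1), h1⟩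

theorem not_upper : ¬ UpperEmbeddable X (ori true) := by
  intro h
  obtain ⟨ε, hε⟩ := transitive_of_upper true h
  exact not_transitive ε hε

/-! ## The orientation `false`: an explicit upper embedding -/

/-- the rotations of the three blocks -/
def ε0 : Pt → Bool
  | Sum.inl x => decide (x = 0)
  | Sum.inr (_, j) => decide (j = 6)

/-- the shift of the blocks at `x` -/
def s0 (x : Pt) : Fin 3 := if ε0 x then 2 else 1

/-- the rotation at `x` -/
def rf (x y : Pt) : Pt :=
  if y = P false x 0 then S false x 0
  else if y = P false x 1 then S false x 1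
  else if y = P false x 2 then S false x 2
  else if y = S false x 0 then P false x (0 + s0 x)
  else if y = S false x 1 then P false x (1 + s0 x)
  else if y = S false x 2 then P false x (2 + s0 x)
  else y

/-- the inverse of the rotation at `x` -/
def rb (x y : Pt) : Pt :=
  if y = S false x 0 then P false x 0
  else if y = S false x 1 then P false x 1
  else if y = S false x 2 then P false x 2
  else if y = P false x (0 + s0 x) then S false x 0
  else if y = P false x (1 + s0 x) then S false x 1
  else if y = P false x (2 + s0 x) then S false x 2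
  else y

theorem rf_cyclic : ∀ x y : Pt, (graph X).Adj x y → ∃ k : Fin 6, (rf x)^[k] (P false x 0) = y := by
  decide +kernel

/-- the rotation system -/
def ρ0 : RotationSystem X where
  rot x := ⟨rf x, rb x, by revert x; decide +kernel, by revert x; decide +kernel⟩
  fixes := by decide +kernel
  cyclic := by
    intro u
    have h : ∀ x, (graph X).Adj u x → Equiv.Perm.SameCycle
        (⟨rf u, rb u, by revert u; decide +kernel, by revert u; decide +kernel⟩ : Equiv.Perm Pt)
        (P false u 0) x := by
      intro x hx
      obtain ⟨k, hk⟩ := rf_cyclic u x hx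
      refine ⟨(k : ℕ), ?_⟩
      rw [zpow_natCast, ← Equiv.Perm.iterate_eq_pow]
      exact hk
    exact fun x y hx hy => (h x hx).symm.trans (h y hy)

theorem rf_block : ∀ b x : Pt, x ∈ X.blk b → rf (shift false b x) x =
    shift false b (shift false b x) := by decide +kernel

theorem rev_false (b : Pt) : rev false b = false := rfl

theorem rf_S : ∀ (x : Pt) (i : Fin 3), rf x (S false x i) =
    P false x (i + (if ε0 x then 2 else 1)) := by decide +kernel

theorem dart_cases : ∀ x y : Pt, (graph X).Adj x y →
    (∃ b, x ∈ X.blk b ∧ y = shift false b x) ∨ ∃ i, x = S false y i := by decide +kernel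

/-- the position of a flag on the face -/
def idx : Flag → ℕ
  | (Sum.inl x, s) => (![![0, 25, 70], ![15, 27, 69], ![68, 72, 80], ![26, 38, 67], ![37, 16, 24], ![71, 28, 36]] : Fin 6 → Fin 3 → ℕ) x s
  | (Sum.inr (i, j), s) => (![![![39, 43, 52], ![79, 46, 50], ![78, 42, 48], ![77, 45, 73], ![76, 41, 51], ![75, 44, 49], ![40, 47, 74]],
      ![![1, 5, 14], ![23, 8, 12], ![22, 4, 10], ![21, 7, 17], ![20, 3, 13], ![19, 6, 11], ![2, 9, 18]],
      ![![53, 57, 66], ![35, 60, 64], ![34, 56, 62], ![33, 59, 29], ![32, 55, 65], ![31, 58, 63], ![54, 61, 30]]] :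
      Fin 3 → Fin 7 → Fin 3 → ℕ) i j s

theorem idx_F : ∀ f : Flag, idx (F false ε0 f) = (idx f + 1) % 81 := by decide +kernel

theorem idx_lt : ∀ f : Flag, idx f < 81 := by decide +kernel

theorem idx_inj : ∀ f f' : Flag, idx f = idx f' → f = f' := by decide +kernel

theorem idx_iterate (f : Flag) (n : ℕ) : idx ((F false ε0)^[n] f) = (idx f + n) % 81 := by
  induction n with
  | zero => exact (Nat.mod_eq_of_lt (idx_lt f)).symm
  | succ n ih =>
    rw [Function.iterate_succ_apply', idx_F, ih]
    omega

theorem transitive0 (f f' : Flag) : ∃ n : ℕ, (F false ε0)^[n] f = f' := by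
  refine ⟨idx f' + 81 - idx f, ?_⟩
  apply idx_inj
  rw [idx_iterate]
  have h1 := idx_lt f
  have h2 := idx_lt f'
  omega

theorem upper0 : UpperEmbeddable X (ori false) := by
  refine ⟨ρ0, ?_, ?_⟩
  · intro b x hx
    apply Prod.ext
    · rfl
    · exact rf_block b x hx
  · rintro ⟨x, y⟩ ⟨x', y'⟩ h1 h2 h3 h4
    have hd : ∀ x y : Pt, (graph X).Adj x y → ¬ BlockDart (ori false) (x, y) →
        ∃ f : Flag, (x, y) = dart false f := by
      intro x y h1 h3
      rcases dart_cases x y h1 with h | ⟨i, hi⟩
      · exact absurd h h3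
      · exact ⟨(y, i), Prod.ext hi rfl⟩
    obtain ⟨f, hf⟩ := hd x y h1 h3
    obtain ⟨f', hf'⟩ := hd x' y' h2 h4
    obtain ⟨n, hn⟩ := transitive0 f f'
    refine ⟨n, ?_⟩
    rw [hf, hf', iterate_dart false ρ0 ε0 rf_S, hn]

/-! ## Connectedness -/

/-- a point closer to the root -/
def par : Pt → Pt
  | Sum.inl x => (![Sum.inl 0, Sum.inl 0, Sum.inl 0, Sum.inl 0, Sum.inl 0, Sum.inl 0] : Fin 6 → Pt) x
  | Sum.inr (i, j) => (![![Sum.inl 3, Sum.inl 2, Sum.inr (0, 1), Sum.inl 2, Sum.inr (0, 1), Sum.inr (0, 1), Sum.inr (0, 1)],
      ![Sum.inl 0, Sum.inl 4, Sum.inr (1, 0), Sum.inl 4, Sum.inr (1, 0), Sum.inr (1, 0), Sum.inr (1, 0)],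
      ![Sum.inl 3, Sum.inl 5, Sum.inr (2, 0), Sum.inl 5, Sum.inr (2, 0), Sum.inr (2, 0), Sum.inr (2, 0)]] : Fin 3 → Fin 7 → Pt) i j

/-- the distance to the root -/
def dep : Pt → ℕ
  | Sum.inl x => (![0, 1, 1, 1, 1, 1] : Fin 6 → ℕ) x
  | Sum.inr (i, j) => (![![2, 2, 3, 2, 3, 3, 3], ![1, 2, 2, 2, 2, 2, 2], ![2, 2, 3, 2, 3, 3, 3]] :
      Fin 3 → Fin 7 → ℕ) i j

theorem par_spec : ∀ x : Pt, x = Sum.inl 0 ∨ ((graph X).Adj x (par x) ∧ dep (par x) < dep x) := by
  decide +kernel

theorem connected : (graph X).Connected := by
  have h : ∀ n : ℕ, ∀ x : Pt, dep x ≤ n → (graph X).Reachable x (Sum.inl 0) := by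
    intro n
    induction n with
    | zero =>
      intro x hx
      rcases par_spec x with rfl | ⟨-, h⟩
      · exact SimpleGraph.Reachable.refl _
      · omega
    | succ n ih =>
      intro x hx
      rcases par_spec x with rfl | ⟨h1, h2⟩
      · exact SimpleGraph.Reachable.refl _
      · exact h1.reachable.trans (ih _ (by omega))
  exact SimpleGraph.Connected.mk (fun x y => (h _ x le_rfl).trans (h _ y le_rfl).symm)

/-- There is a connected symmetric configuration `27_3` with two orientations such that it is upper
embeddable in the first one but not in the second one. -/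
theorem result : ∃ (X : Conf Pt Pt) (ω₁ ω₂ : Orientation X), Fintype.card Pt = 27 ∧
    (graph X).Connected ∧ UpperEmbeddable X ω₁ ∧ ¬ UpperEmbeddable X ω₂ :=
  ⟨X, ori false, ori true, by decide, connected, upper0, not_upper⟩

end Pool.Agent.Results.MP_e7dc11_co.OrientationDependence
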